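import Pool.Agent.Y377.IL.Stm
import Pool.Agent.TH143.Hol

/-!
Project IL, statement DER: infinitesimal symmetries of linear systems.
-/

set_option autoImplicit false

namespace Pool.Agent.Y587.IL

open Pool.Agent.Y377.EL Pool.Agent.Y377.IL Polynomial

variable {K : Type} [Field K] [Algebra ℂ K]

/-- A derivation which kills a ring kills all the elements algebraic over it. -/
theorem der_alg {S : Subalgebra ℂ K} (δ : Derivation ℂ K K) (hδ : ∀ s ∈ S, δ s = 0) {x : K}
    (hx : IsAlgebraic S x) : δ x = 0 := by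
  have hch : CharZero S := charZero_of_injective_algebraMap (algebraMap ℂ S).injective
  obtain ⟨P, hP0, hP, hd, hmin⟩ := exists_min hx
  have hS : ∀ s ∈ S, δ s ∈ S := fun s hs => by
    rw [hδ s hs]
    exact S.zero_mem
  have h := D_aeval δ S hS x P
  have hdc : dc (dres δ S hS) P = 0 := by
    ext n
    rw [coeff_dc, dres_coe, hδ _ (P.coeff n).2]
    simp
  rw [hP, map_zero, hdc, map_zero, zero_add] at h
  rcases mul_eq_zero.1 h.symm with h1 | h1
  · exfalso
    have h2 := hmin (derivative P) h1 (fun n hn => by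
      rw [coeff_derivative, coeff_eq_zero_of_natDegree_lt (by omega), zero_mul])
    have h3 := natDegree_eq_zero_of_derivative_eq_zero h2
    omega
  · exact h1

/-- The elements of the fraction field are algebraic. -/
theorem frac_alg {R : Subalgebra ℂ K} {x : K} (hx : x ∈ frac R) : IsAlgebraic R x := by
  obtain ⟨r, hr, hr0, h⟩ := hx
  refine ⟨C (⟨r, hr⟩ : R) * X - C (⟨r * x, h⟩ : R), ?_, ?_⟩
  · intro hc
    have h1 := congrArg (fun p => p.coeff 1) hc
    simp only [coeff_sub, coeff_C_mul, coeff_X_one, mul_one, coeff_zero] at h1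
    rw [coeff_C_ne_zero one_ne_zero, sub_zero] at h1
    exact hr0 (congrArg Subtype.val h1)
  · rw [map_sub, map_mul, aeval_C, aeval_X, aeval_C]
    show r * x - r * x = 0
    ring

/-- The product rule for the entries of a product of matrices. -/
theorem der_mul {n : ℕ} (δ : Derivation ℂ K K) (A B : Matrix (Fin n) (Fin n) K) :
    (A * B).map δ = A.map δ * B + A * B.map δ := by
  ext i j
  simp only [Matrix.map_apply, Matrix.add_apply, Matrix.mul_apply]
  rw [map_sum, ← Finset.sum_add_distrib]
  refine Finset.sum_congr rfl fun k _ => ?_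
  rw [δ.leibniz, smul_eq_mul, smul_eq_mul]
  ring

theorem der_one {n : ℕ} (δ : Derivation ℂ K K) :
    (1 : Matrix (Fin n) (Fin n) K).map δ = 0 := by
  ext i j
  simp only [Matrix.map_apply, Matrix.zero_apply]
  by_cases h : i = j
  · rw [h, Matrix.one_apply_eq, δ.map_one_eq_zero]
  · rw [Matrix.one_apply_ne h, map_zero]

/-- The derivative of the inverse matrix. -/
theorem der_inv {n : ℕ} (δ : Derivation ℂ K K) {A B : Matrix (Fin n) (Fin n) K} (h : A * B = 1) :
    B.map δ = -(B * A.map δ * B) := by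
  have h' : B * A = 1 := mul_eq_one_comm.1 h
  have h1 := der_mul δ A B
  rw [h, der_one] at h1
  have h2 : A * B.map δ = -(A.map δ * B) := by
    rw [eq_neg_iff_add_eq_zero, add_comm]
    exact h1.symm
  calc B.map δ = (B * A) * B.map δ := by rw [h', one_mul]
    _ = B * (A * B.map δ) := by rw [mul_assoc]
    _ = -(B * A.map δ * B) := by rw [h2, mul_neg, mul_assoc]

theorem t_DER : S_DER := by
  intro K _ _ D hC R hR n X Y M hF x hx hxR
  by_contra hcon
  push Not at hcon
  have hch : CharZero K := charZero_of_injective_algebraMap (algebraMap ℂ K).injective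
  -- a derivation
  have htr : Transcendental (frac R) x := by
    intro ha
    apply hxR
    refine alg_trans (S := (frac R).toSubalgebra) (fun r hr => le_frac R hr)
      (fun y hy => frac_alg hy) ?_
    exact ha
  obtain ⟨δL, hδL⟩ := Pool.Agent.TH143.der_of_transcendental htr
  obtain ⟨δ0, hδ0⟩ : ∃ δ0 : Derivation ℂ K K, δ0 = δL.restrictScalars ℂ := ⟨_, rfl⟩
  have hδ0x : δ0 x = 1 := by rw [hδ0]; exact hδL
  have hδ0R : ∀ r ∈ R, δ0 r = 0 := by
    intro r hr
    rw [hδ0]
    exact δL.map_algebraMap (⟨r, le_frac R hr⟩ : frac R)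
  have hDX : X.map D = M * X := by
    ext i j
    rw [Matrix.map_apply, hF.eq, Matrix.mul_apply]
  have hYX : Y * X = 1 := mul_eq_one_comm.1 hF.inv
  have hDY : Y.map D = -(Y * M) := by
    rw [der_inv D hF.inv, hDX, ← mul_assoc, mul_assoc (Y * M), hF.inv, mul_one]
  -- the space of the logarithmic derivatives
  obtain ⟨lg, hlg⟩ : ∃ lg : Derivation ℂ K K → (Fin n × Fin n → K),
      lg = fun δ p => (Y * X.map δ) p.1 p.2 := ⟨_, rfl⟩
  have hlg_add : ∀ δ δ' : Derivation ℂ K K, lg (δ + δ') = lg δ + lg δ' := by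
    intro δ δ'
    funext p
    rw [hlg]
    simp only [Pi.add_apply, Matrix.mul_apply, Matrix.map_apply, Derivation.add_apply, mul_add,
      Finset.sum_add_distrib]
  have hlg_smul : ∀ (k : K) (δ : Derivation ℂ K K), lg (k • δ) = k • lg δ := by
    intro k δ
    funext p
    rw [hlg]
    simp only [Pi.smul_apply, Matrix.mul_apply, Matrix.map_apply, Derivation.smul_apply,
      smul_eq_mul, Finset.mul_sum]
    exact Finset.sum_congr rfl fun l _ => by ring
  have hlg_zero : lg 0 = 0 := by
    funext p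
    rw [hlg]
    simp only [Pi.zero_apply, Matrix.mul_apply, Matrix.map_apply, Derivation.zero_apply, mul_zero,
      Finset.sum_const_zero]
  let H : Submodule K (Fin n × Fin n → K) :=
    { carrier := {f | ∃ δ : Derivation ℂ K K, (∀ r ∈ R, δ r = 0) ∧ f = lg δ}
      add_mem' := by
        rintro f g ⟨δ, h1, h2⟩ ⟨δ', h1', h2'⟩
        refine ⟨δ + δ', fun r hr => ?_, ?_⟩
        · rw [Derivation.add_apply, h1 r hr, h1' r hr, add_zero]
        · rw [h2, h2', hlg_add]
      zero_mem' := ⟨0, fun r _ => rfl, hlg_zero.symm⟩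
      smul_mem' := by
        rintro k f ⟨δ, h1, h2⟩
        refine ⟨k • δ, fun r hr => ?_, ?_⟩
        · rw [Derivation.smul_apply, h1 r hr, smul_zero]
        · rw [h2, hlg_smul] }
  have hstab : ∀ f ∈ H, (fun i => D (f i)) ∈ H := by
    rintro f ⟨δ, h1, h2⟩
    refine ⟨⁅D, δ⁆, fun r hr => ?_, ?_⟩
    · rw [Derivation.commutator_apply, h1 r hr, h1 _ (hR r hr), map_zero, sub_zero]
    · have hMδ : M.map δ = 0 := by
        ext i j
        rw [Matrix.map_apply, h1 _ (hF.mem i j), Matrix.zero_apply]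
      have e1 : X.map (⁅D, δ⁆ : Derivation ℂ K K) = (X.map δ).map D - (X.map D).map δ := by
        ext i j
        simp only [Matrix.map_apply, Matrix.sub_apply, Derivation.commutator_apply]
      have e2 : (X.map D).map δ = M * X.map δ := by
        rw [hDX, der_mul, hMδ, zero_mul, zero_add]
      have e3 : (Y * X.map δ).map D = Y * X.map (⁅D, δ⁆ : Derivation ℂ K K) := by
        rw [der_mul, hDY, e1, e2, mul_sub, neg_mul, mul_assoc]
        abel
      funext p
      rw [h2, hlg]
      exact congrFun (congrFun e3 p.1) p.2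
  have hdesc := descent hC H (fun f _ => Set.toFinite _) hstab (lg δ0) ⟨δ0, hδ0R, rfl⟩
  -- span induction
  have hspan : ∀ f ∈ Submodule.span K {g | g ∈ H ∧ ∀ i, ∃ c : ℂ, g i = algebraMap ℂ K c},
      ∃ δ : Derivation ℂ K K, (∀ r ∈ R, δ r = 0) ∧ f = lg δ ∧ δ x = 0 := by
    intro f hf
    refine Submodule.span_induction (p := fun f _ => ∃ δ : Derivation ℂ K K,
      (∀ r ∈ R, δ r = 0) ∧ f = lg δ ∧ δ x = 0) ?_ ?_ ?_ ?_ hf
    · rintro g ⟨⟨δ, h1, h2⟩, hg⟩
      refine ⟨δ, h1, h2, ?_⟩
      by_contra hx0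
      choose c hc using hg
      obtain ⟨i, j, hij⟩ := hcon δ (Matrix.of fun i j => c (i, j)) h1 hx0
      apply hij
      have e1 : Y * X.map δ = Matrix.of fun i j => algebraMap ℂ K (c (i, j)) := by
        ext i j
        rw [Matrix.of_apply, ← hc (i, j), h2, hlg]
      have e2 : X.map δ = X * (Matrix.of fun i j => algebraMap ℂ K (c (i, j))) := by
        rw [← e1, ← mul_assoc, hF.inv, one_mul]
      have e3 := congrFun (congrFun e2 i) j
      rw [Matrix.map_apply, Matrix.mul_apply] at e3
      exact e3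
    · exact ⟨0, fun r _ => rfl, hlg_zero.symm, rfl⟩
    · rintro f g _ _ ⟨δ, h1, h2, h3⟩ ⟨δ', h1', h2', h3'⟩
      refine ⟨δ + δ', fun r hr => ?_, ?_, ?_⟩
      · rw [Derivation.add_apply, h1 r hr, h1' r hr, add_zero]
      · rw [h2, h2', hlg_add]
      · rw [Derivation.add_apply, h3, h3', add_zero]
    · rintro k f _ ⟨δ, h1, h2, h3⟩
      refine ⟨k • δ, fun r hr => ?_, ?_, ?_⟩
      · rw [Derivation.smul_apply, h1 r hr, smul_zero]
      · rw [h2, hlg_smul]
      · rw [Derivation.smul_apply, h3, smul_zero]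
  obtain ⟨δ1, h1, h2, h3⟩ := hspan _ hdesc
  obtain ⟨δ', hδ'⟩ : ∃ δ' : Derivation ℂ K K, δ' = δ0 + (-1 : K) • δ1 := ⟨_, rfl⟩
  have hδ'R : ∀ r ∈ R, δ' r = 0 := by
    intro r hr
    rw [hδ', Derivation.add_apply, Derivation.smul_apply, hδ0R r hr, h1 r hr, smul_zero, add_zero]
  have hδ'x : δ' x = 1 := by
    rw [hδ', Derivation.add_apply, Derivation.smul_apply, hδ0x, h3, smul_zero, add_zero]
  have hlg' : lg δ' = 0 := by
    rw [hδ', hlg_add, hlg_smul, ← h2, neg_one_smul, add_neg_cancel]
  have hYδ : Y * X.map δ' = 0 := by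
    ext i j
    have := congrFun hlg' (i, j)
    rw [hlg] at this
    exact this
  have hXδ : X.map δ' = 0 := by
    calc X.map δ' = X * (Y * X.map δ') := by rw [← mul_assoc, hF.inv, one_mul]
      _ = 0 := by rw [hYδ, mul_zero]
  have hYδ' : Y.map δ' = 0 := by
    rw [der_inv δ' hF.inv, hXδ, mul_zero, zero_mul, neg_zero]
  -- the kernel
  let ker : Subalgebra ℂ K :=
    { carrier := {a | δ' a = 0}
      mul_mem' := by
        intro a b ha hb
        show δ' (a * b) = 0
        have ha' : δ' a = 0 := ha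
        have hb' : δ' b = 0 := hb
        rw [δ'.leibniz, ha', hb', smul_zero, smul_zero, add_zero]
      add_mem' := by
        intro a b ha hb
        show δ' (a + b) = 0
        have ha' : δ' a = 0 := ha
        have hb' : δ' b = 0 := hb
        rw [map_add, ha', hb', add_zero]
      algebraMap_mem' := fun c => δ'.map_algebraMap c }
  have hker : mat R X Y ≤ ker := by
    unfold mat
    refine sup_le (fun r hr => hδ'R r hr) (Algebra.adjoin_le ?_)
    rintro a ⟨i, j, h | h⟩
    · rw [h]
      exact congrFun (congrFun hXδ i) j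
    · rw [h]
      exact congrFun (congrFun hYδ' i) j
  have hfin := der_alg δ' (fun s hs => hker hs) hx
  rw [hδ'x] at hfin
  exact one_ne_zero hfin

end Pool.Agent.Y587.IL
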